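import Pool.Agent.H37.CNS.Stmts

/-! Row OM3 of the board `cns`. -/

set_option autoImplicit false

namespace Pool.CND

open Finset Matrix

theorem om3_thm (h1 : S_OM1) (h2 : S_OM2) (hz : S_ZHF) : S_OM3 := by
  intro p k G _ _ _ _ _ hp hp2 hcard x hx hxc
  haveI : Fact p.Prime := ⟨hp⟩
  obtain ⟨E, hEn, hEA, hEc⟩ := h1 p G hp hp2 hcard x hx hxc
  obtain ⟨r, κ, β, hr, hκ, hκ1, hβ, hβs, hact⟩ := h2 p G E hcard hEn hEA hEc
  have h := hz p 1 r k (ZMod p) G κ β hp le_rfl hr hcard hκ hκ1 hβ hβs hact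
  have hg : Nat.gcd 2 p = 1 := by
    have : Nat.Coprime 2 p := (Nat.coprime_primes Nat.prime_two hp).2 (Ne.symm hp2)
    exact this
  rw [hg, one_mul, pow_one, Nat.card_zmod] at h
  exact h

end Pool.CND
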